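import Pool.Agent.H25.GD.Targets

/-! V_DER: the derivative of an invariant measure under the gluing. -/

set_option autoImplicit false

namespace Pool.Agent.H98.GD

open Pool.Agent.H44.DU Filter Topology

theorem pf_V_DER : V_DER := by
  intro n S t p hp r x hx
  have ha : S.a r ≠ 0 := (S.a_pos r).ne'
  have hnear : ∀ᶠ y in 𝓝 x, xi t (S.Q r) < y ∧ y < xi t (S.P r) :=
    (lt_mem_nhds hx.1).and (gt_mem_nhds hx.2)
  have hev : (fun y => p (S.gl r).1 (S.mv t r y)) =ᶠ[𝓝 x]
      (fun y => p r.1 y + (p (S.gl r).1 (S.mv t r x) - p r.1 x)) := by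
    filter_upwards [hnear] with y hy
    rcases le_total x y with h | h
    · have h1 := hp.glue r x y hx.1.le h hy.2.le
      linarith
    · have h1 := hp.glue r y x hy.1.le h hx.2.le
      linarith
  have h1 : deriv (fun y => p (S.gl r).1 (S.mv t r y)) x = deriv (p r.1) x := by
    rw [hev.deriv_eq, deriv_add_const]
  have h2 : deriv (fun y => p (S.gl r).1 (S.mv t r y)) x =
      S.a r * deriv (p (S.gl r).1) (S.mv t r x) := by
    have h4 := deriv_comp_mul_left (S.a r) (fun u => p (S.gl r).1 (u + xi t (S.b r))) x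
    have h5 := deriv_comp_add_const (f := p (S.gl r).1) (xi t (S.b r)) (S.a r * x)
    rw [h5, smul_eq_mul] at h4
    exact h4
  rw [h2] at h1
  rw [← h1]
  field_simp

end Pool.Agent.H98.GD
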